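import Pool.Agent.MP_c1891a_nt.H43.Spec

/-
The Mahler measures of the one-parameter restrictions are bounded below on average.
-/

namespace Pool.Agent.MP_c1891a_nt.H43

open Finset Polynomial Module

theorem pos_frob {R ι : Type} [CommRing R] {l : ℕ} (hl : l.Prime) (s : Finset ι) (c : ι → ℤ)
    (t : ι → R) : (l : R) ∣ ∑ i ∈ s, (c i : R) * t i ^ l - (∑ i ∈ s, (c i : R) * t i) ^ l := by
  classical
  induction s using Finset.induction_on with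
  | empty => simp [hl.ne_zero]
  | insert a s ha ih =>
    obtain ⟨r, hr⟩ := exists_add_pow_prime_eq hl ((c a : R) * t a) (∑ i ∈ s, (c i : R) * t i)
    obtain ⟨u, hu⟩ := ih
    obtain ⟨w, hw⟩ := Int.prime_dvd_pow_self_sub hl (c a)
    have hw' : (c a : R) ^ l - c a = l * w := by exact_mod_cast congrArg (Int.cast : ℤ → R) hw
    rw [sum_insert ha, sum_insert ha, hr, mul_pow]
    exact ⟨u - w * t a ^ l - (c a : R) * t a * (∑ i ∈ s, (c i : R) * t i) * r, by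
      linear_combination hu - t a ^ l * hw'⟩

theorem pos_ex {P : LP} (v₁ v₂ : ℤ) {μ : ℤ × ℤ} (hμ : μ ∈ P.coeff.support) :
    (ex P v₁ v₂ μ : ℤ) = A1 P v₁ v₂ + v₁ * μ.1 + v₂ * μ.2 ∧ ex P v₁ v₂ μ ≤ 2 * A1 P v₁ v₂ := by
  have h : max μ.1.natAbs μ.2.natAbs ≤ Rn P :=
    le_sup (f := fun μ : ℤ × ℤ => max μ.1.natAbs μ.2.natAbs) hμ
  have h1 : (v₁ * μ.1).natAbs ≤ Rn P * v₁.natAbs := by
    rw [Int.natAbs_mul, mul_comm]
    exact Nat.mul_le_mul_right _ (le_of_max_le_left h)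
  have h2 : (v₂ * μ.2).natAbs ≤ Rn P * v₂.natAbs := by
    rw [Int.natAbs_mul, mul_comm]
    exact Nat.mul_le_mul_right _ (le_of_max_le_right h)
  have h3 : A1 P v₁ v₂ = Rn P * v₁.natAbs + Rn P * v₂.natAbs := by rw [A1, mul_add]
  rw [ex]
  omega

/-- the monomials of the restriction. -/
noncomputable def posT {R : Type} [CommRing R] (P : LP) (u : ℤ × ℤ → R) (v₁ v₂ : ℤ) (μ : ℤ × ℤ) :
    R[X] := C (u μ) * X ^ ex P v₁ v₂ μ

/-- the Frobenius twist of the restriction. -/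
noncomputable def posF {R : Type} [CommRing R] (P : LP) (u : ℤ × ℤ → R) (v₁ v₂ : ℤ) (l : ℕ) :
    R[X] := ∑ μ ∈ P.coeff.support, (P.coeff μ : R[X]) * posT P u v₁ v₂ μ ^ l

theorem pos_map {R S : Type} [CommRing R] [CommRing S] (φ : R →+* S) (P : LP) (u : ℤ × ℤ → R)
    (v₁ v₂ : ℤ) (l : ℕ) : (posF P u v₁ v₂ l).map φ = posF P (fun μ => φ (u μ)) v₁ v₂ l := by
  simp [posF, posT, Polynomial.map_sum]

theorem pos_one {F : Type} [Field F] (P : LP) (η₁ η₂ : F) (v₁ v₂ : ℤ) :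
    F1 P η₁ η₂ v₁ v₂ = posF P (fun μ => η₁ ^ μ.1 * η₂ ^ μ.2) v₁ v₂ 1 := by
  refine sum_congr rfl fun μ _ => ?_
  rw [posT, pow_one, mul_assoc, map_mul, map_intCast, mul_assoc]

theorem pos_deg {R : Type} [CommRing R] (P : LP) (u : ℤ × ℤ → R) (v₁ v₂ : ℤ) (l : ℕ) :
    (posF P u v₁ v₂ l).natDegree ≤ l * (2 * A1 P v₁ v₂) := by
  refine natDegree_sum_le_of_forall_le _ _ fun μ hμ => ?_
  rw [← C_eq_intCast]
  refine (natDegree_C_mul_le _ _).trans (natDegree_pow_le.trans (Nat.mul_le_mul_left _ ?_))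
  exact (natDegree_C_mul_X_pow_le _ _).trans (pos_ex v₁ v₂ hμ).2

theorem pos_eval (P : LP) (η₁ η₂ : ℂ) (v₁ v₂ : ℤ) (l : ℕ) {α : ℂ} (hα : α ≠ 0) :
    (posF P (fun μ => η₁ ^ μ.1 * η₂ ^ μ.2) v₁ v₂ l).eval α =
      (α ^ A1 P v₁ v₂) ^ l * ev P ((η₁ * α ^ v₁) ^ l) ((η₂ * α ^ v₂) ^ l) := by
  rw [posF, eval_finsetSum, ev, mul_sum]
  refine sum_congr rfl fun μ hμ => ?_
  have h : α ^ ex P v₁ v₂ μ = α ^ A1 P v₁ v₂ * (α ^ v₁) ^ μ.1 * (α ^ v₂) ^ μ.2 := by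
    rw [← zpow_natCast, (pos_ex v₁ v₂ hμ).1, zpow_add₀ hα, zpow_add₀ hα, zpow_natCast, zpow_mul,
      zpow_mul]
  have e : ∀ (x : ℂ) (m : ℤ), (x ^ l) ^ m = (x ^ m) ^ l := fun x m => by
    rw [← zpow_natCast, ← zpow_natCast, ← zpow_mul, ← zpow_mul, mul_comm]
  simp only [posT, eval_mul, eval_pow, eval_intCast, eval_C, eval_X, h, e, mul_zpow, mul_pow]
  ring

theorem pos_bound (P : LP) {u : ℤ × ℤ → ℂ} (hu : ∀ μ, ‖u μ‖ = 1) (v₁ v₂ : ℤ) (l : ℕ) (α : ℂ) :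
    ‖(posF P u v₁ v₂ l).eval α‖ ≤ Hn P * max 1 ‖α‖ ^ (l * (2 * A1 P v₁ v₂)) := by
  rw [posF, eval_finsetSum, Hn, Nat.cast_sum, sum_mul]
  refine (norm_sum_le _ _).trans (sum_le_sum fun μ hμ => ?_)
  simp only [posT, eval_mul, eval_pow, eval_intCast, eval_C, eval_X, norm_mul, norm_pow, hu,
    one_mul, Complex.norm_intCast]
  rw [Nat.cast_natAbs, Int.cast_abs, ← pow_mul]
  refine mul_le_mul_of_nonneg_left ?_ (abs_nonneg _)
  refine (pow_le_pow_left₀ (norm_nonneg _) (le_max_right 1 _) _).trans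
    (pow_le_pow_right₀ (le_max_left _ _) ?_)
  rw [mul_comm]
  exact Nat.mul_le_mul_left _ (pos_ex v₁ v₂ hμ).2

theorem pos_zpow {F : Type} [Field F] {x : F} {N : ℕ} (h : x ^ N = 1) (k : ℤ) : (x ^ k) ^ N = 1 := by
  rw [← zpow_natCast, ← zpow_mul, mul_comm, zpow_mul, zpow_natCast, h, one_zpow]

theorem sPos (h1 : SMany) (h2 : SFrob) (h3 : SFin) (h4 : SField) : SPos := by
  intro P hP hM
  obtain ⟨B₁, hB₁⟩ := h3 P P hP hP
  obtain ⟨l, hl1, hl⟩ := Nat.exists_infinite_primes (3 * Hn P + B₁ + 1)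
  have hZ : (ZS P P (fun _ => 1) ![1, 0, l, 0] ![0, 1, 0, l]).Finite := by
    by_contra hi
    obtain ⟨m, a, b, c, d, hm, -, ha, -, -, -, e, -⟩ := hB₁ _ _ _ (fun _ => ⟨1, one_pos, one_pow 1⟩)
      ⟨0, 1, by simp⟩ (by simp) (by simp [hl.ne_zero]) hi
    simp only [Matrix.cons_val, mul_one, mul_zero, add_zero] at e
    have : (l : ℤ) ≤ m * l := le_mul_of_one_le_left (by positivity) (by exact_mod_cast hm)
    have := le_abs_self a
    omega
  obtain ⟨c₀, B, hc₀, hB⟩ := h1 P hP hM hZ.toFinset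
  have hl0 : (0 : ℝ) < l := by exact_mod_cast hl.pos
  have h30 : 0 < Real.log 3 := Real.log_pos (by norm_num)
  refine ⟨c₀ * Real.log 3 / (2 * l), B, by positivity, fun N ω k₁ k₂ v₁ v₂ hN hω hv => ?_⟩
  refine (hB (ω ^ k₁) (ω ^ k₂) v₁ v₂ ⟨N, hN, pos_zpow hω.pow_eq_one k₁⟩
    ⟨N, hN, pos_zpow hω.pow_eq_one k₂⟩ hv).imp id ?_
  rintro ⟨s, hs, hs1, hs2, hs3⟩
  obtain ⟨L, _, _, ι, ω', hι, hrk, hG⟩ := h4.1 N ω hN hω
  have hω' : ω' ^ N = 1 := ι.injective (by rw [map_pow, hι, hω.pow_eq_one, map_one])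
  have hu : ∀ μ : ℤ × ℤ, ((ω' ^ k₁) ^ μ.1 * (ω' ^ k₂) ^ μ.2) ^ N = 1 := fun μ => by
    rw [mul_pow, pos_zpow (pos_zpow hω' k₁), pos_zpow (pos_zpow hω' k₂), one_mul]
  let O := integralClosure ℤ L
  let u : ℤ × ℤ → O := fun μ => ⟨(ω' ^ k₁) ^ μ.1 * (ω' ^ k₂) ^ μ.2,
    IsIntegral.of_pow hN (by rw [hu]; exact isIntegral_one)⟩
  let φ : O →+* L := O.val.toRingHom
  obtain ⟨W, hW⟩ := pos_frob hl P.coeff.support P.coeff (posT P u v₁ v₂)
  have hW' : posF P u v₁ v₂ l - posF P u v₁ v₂ 1 ^ l = l * W := by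
    simpa only [posF, pow_one] using hW
  have hint : ∀ g : O[X], IntC (g.map φ) := fun g i => by rw [coeff_map]; exact (g.coeff i).2
  have hσ : ∀ (σ : L →+* ℂ) (j : ℕ), ((posF P u v₁ v₂ j).map φ).map σ =
      posF P (fun μ => (σ ω' ^ k₁) ^ μ.1 * (σ ω' ^ k₂) ^ μ.2) v₁ v₂ j := fun σ j => by
    rw [pos_map, pos_map]
    congr 1
    funext μ
    simp [φ, u]
  have hWσ : ∀ (σ : L →+* ℂ) (α : ℂ), (((posF P u v₁ v₂ 1).map φ).map σ).IsRoot α →
      l * ((W.map φ).map σ).eval α = (((posF P u v₁ v₂ l).map φ).map σ).eval α := by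
    intro σ α hα
    have := congrArg (fun g : O[X] => ((g.map φ).map σ).eval α) hW'
    simp only [Polynomial.map_sub, Polynomial.map_pow, Polynomial.map_mul, Polynomial.map_natCast,
      eval_sub, eval_pow, eval_mul, eval_natCast, hα.eq_zero, zero_pow hl.ne_zero, sub_zero] at this
    exact this.symm
  have hfι : ((posF P u v₁ v₂ 1).map φ).map ι = F1 P (ω ^ k₁) (ω ^ k₂) v₁ v₂ := by
    rw [hσ, hι, pos_one]
  have hf0 : F1 P (ω ^ k₁) (ω ^ k₂) v₁ v₂ ≠ 0 := by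
    intro h
    rw [h, roots_zero, Multiset.le_zero] at hs
    simp [hs] at hs1
  have key := h2 L ι ((posF P u v₁ v₂ 1).map φ) (W.map φ) (l * (2 * A1 P v₁ v₂)) s.card (1 / 3)
    (fun h => hf0 (by rw [← hfι, h, Polynomial.map_zero])) (hint _) (hint _) ?_ (by norm_num)
    (by norm_num) ?_ ⟨s, hfι ▸ hs, le_rfl, ?_⟩
  · simp only [hσ, ← pos_one] at key
    rw [hG fun x => (F1 P (x ^ k₁) (x ^ k₂) v₁ v₂).logMahlerMeasure, hrk, one_div_one_div] at key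
    push_cast at key
    have ht : (0 : ℝ) < N.totient := by exact_mod_cast Nat.totient_pos.2 hN
    have hs1' : (1 : ℝ) ≤ s.card := by exact_mod_cast hs1
    have hA : (0 : ℝ) < A1 P v₁ v₂ := by
      rcases Nat.eq_zero_or_pos (A1 P v₁ v₂) with h | h
      · rw [h] at key
        have : (0 : ℝ) < s.card * N.totient * Real.log 3 := by positivity
        simp only [Nat.cast_zero, mul_zero, zero_mul] at key
        linarith
      · exact_mod_cast h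
    rw [div_mul_eq_mul_div, div_le_iff₀ (by positivity)]
    refine le_of_mul_le_mul_left ?_ hA
    have := mul_le_mul_of_nonneg_right hs2 (mul_pos ht h30).le
    nlinarith
  · have hlL : (l : L) ≠ 0 := by exact_mod_cast hl.ne_zero
    have := congrArg (Polynomial.map φ) hW'
    rw [Polynomial.map_mul, Polynomial.map_natCast, ← C_eq_natCast] at this
    rw [← natDegree_C_mul hlL, ← this]
    refine natDegree_map_le.trans ((natDegree_sub_le _ _).trans (max_le (pos_deg _ _ _ _ _) ?_))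
    exact natDegree_pow_le.trans (Nat.mul_le_mul_left _ (by simpa using pos_deg P u v₁ v₂ 1))
  · intro σ α hα
    have e := congrArg norm (hWσ σ α hα)
    rw [norm_mul, Complex.norm_natCast, hσ] at e
    have b := pos_bound P (u := fun μ => (σ ω' ^ k₁) ^ μ.1 * (σ ω' ^ k₂) ^ μ.2) (fun μ =>
      Complex.norm_eq_one_of_pow_eq_one (by simpa using congrArg σ (hu μ)) hN.ne') v₁ v₂ l α
    rw [← e] at b
    have hH : 3 * (Hn P : ℝ) ≤ l := by exact_mod_cast (by omega : 3 * Hn P ≤ l)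
    have hp : (0 : ℝ) ≤ max 1 ‖α‖ ^ (l * (2 * A1 P v₁ v₂)) := by positivity
    refine le_of_mul_le_mul_left (b.trans ?_) hl0
    nlinarith
  · intro α hα h0
    obtain ⟨hα0, hαZ⟩ := hs3 α hα
    have hr : (F1 P (ω ^ k₁) (ω ^ k₂) v₁ v₂).IsRoot α :=
      (mem_roots hf0).1 (Multiset.mem_of_le hs hα)
    have e := hWσ ι α (hfι ▸ hr)
    rw [h0, mul_zero, hσ, hι, pos_eval _ _ _ _ _ _ hα0] at e
    rw [IsRoot, pos_one, pos_eval _ _ _ _ _ _ hα0] at hr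
    have hω0 : ω ≠ 0 := hω.ne_zero hN.ne'
    refine hαZ (hZ.mem_toFinset.2 ⟨mul_ne_zero (zpow_ne_zero _ hω0) (zpow_ne_zero _ hα0),
      mul_ne_zero (zpow_ne_zero _ hω0) (zpow_ne_zero _ hα0), ?_, ?_⟩)
    · simpa [hα0] using hr
    · simpa [hα0] using e.symm

end Pool.Agent.MP_c1891a_nt.H43
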