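import Pool.Agent.MP_c1891a_nt.H43.Spec2
import Pool.Agent.MP_c1891a_nt.H88.Prod
import Pool.Agent.MP_c1891a_nt.H41.Field
import Pool.Agent.MP_c1891a_nt.H30.Two

/-
Row OneVar: unit values of a polynomial in one variable at roots of unity.
-/

namespace Pool.Agent.MP_c1891a_nt.H43

open Finset Polynomial

lemma onevar_log_eval (p : ℂ[X]) (hp : p ≠ 0) (x : ℂ) (hx : ∀ α ∈ p.roots, x ≠ α) :
    Real.log ‖p.eval x‖ =
      Real.log ‖p.leadingCoeff‖ + (p.roots.map fun α => Real.log ‖x - α‖).sum := by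
  have key : ∀ s : Multiset ℂ, (∀ α ∈ s, x ≠ α) → (s.map fun α => x - α).prod ≠ 0 ∧
      Real.log ‖(s.map fun α => x - α).prod‖ = (s.map fun α => Real.log ‖x - α‖).sum := by
    intro s
    induction s using Multiset.induction_on with
    | empty => simp
    | cons a s ih =>
      intro h
      obtain ⟨i1, i2⟩ := ih fun α hα => h α (Multiset.mem_cons_of_mem hα)
      have ha : x - a ≠ 0 := sub_ne_zero.2 (h a (Multiset.mem_cons_self a s))
      simp only [Multiset.map_cons, Multiset.prod_cons, Multiset.sum_cons]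
      refine ⟨mul_ne_zero ha i1, ?_⟩
      rw [norm_mul, Real.log_mul (norm_ne_zero_iff.2 ha) (norm_ne_zero_iff.2 i1), i2]
  obtain ⟨k1, k2⟩ := key p.roots hx
  rw [(IsAlgClosed.splits p).eval_eq_prod_roots, norm_mul,
    Real.log_mul (norm_ne_zero_iff.2 (leadingCoeff_ne_zero.2 hp)) (norm_ne_zero_iff.2 k1), k2]

lemma onevar_sum (s : Multiset ℂ) (T : Finset ℕ) (F : ℕ → ℂ → ℝ) (c e : ℝ) (w : ℂ → ℝ)
    (h : ∀ α ∈ s, c * w α - e ≤ ∑ j ∈ T, F j α) :
    c * (s.map w).sum - s.card * e ≤ ∑ j ∈ T, (s.map (F j)).sum := by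
  induction s using Multiset.induction_on with
  | empty => simp
  | cons a s ih =>
    have i1 := ih fun α hα => h α (Multiset.mem_cons_of_mem hα)
    have i2 := h a (Multiset.mem_cons_self a s)
    simp only [Multiset.map_cons, Multiset.sum_cons, Multiset.card_cons, sum_add_distrib]
    push_cast
    linarith

lemma onevar_num (D Y₁ : ℕ) (m : ℝ) (hm : 0 < m) : ∃ N₀ : ℕ, ∀ N : ℕ, N₀ ≤ N →
    D * ((N : ℝ) ^ (1 / 10 : ℝ) * (Real.log (21 * N) + ((Y₁ + Nat.log 2 N + 1 : ℕ) : ℝ) ^ 14)) <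
      (N : ℝ) ^ (1 - 1 / 10 : ℝ) * m := by
  have ht : Filter.Tendsto (fun N : ℕ => (N : ℝ) ^ (1 / 40 : ℝ)) Filter.atTop Filter.atTop :=
    (tendsto_rpow_atTop (by norm_num)).comp tendsto_natCast_atTop_atTop
  obtain ⟨N₀, hN₀⟩ := Filter.eventually_atTop.1
    (ht.eventually_gt_atTop (D * (61 + ((Y₁ : ℝ) + 81) ^ 14) / m))
  refine ⟨max N₀ 1, fun N hN => ?_⟩
  have h1 : (1 : ℝ) ≤ N := by exact_mod_cast (le_max_right _ _).trans hN
  have h0 : (0 : ℝ) < N := by linarith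
  have hb := hN₀ N ((le_max_left _ _).trans hN)
  obtain ⟨t, htd⟩ : ∃ t : ℝ, t = (N : ℝ) ^ (1 / 40 : ℝ) := ⟨_, rfl⟩
  rw [← htd, div_lt_iff₀ hm] at hb
  have ht1 : 1 ≤ t := htd ▸ Real.one_le_rpow h1 (by norm_num)
  have e1 : (N : ℝ) ^ (1 / 10 : ℝ) = t ^ 4 := by
    rw [htd, ← Real.rpow_natCast, ← Real.rpow_mul h0.le]; norm_num
  have e2 : (N : ℝ) ^ (1 - 1 / 10 : ℝ) = t ^ 36 := by
    rw [htd, ← Real.rpow_natCast, ← Real.rpow_mul h0.le]; norm_num
  have hl : Real.log N ≤ 40 * t := by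
    have := Real.log_le_rpow_div h0.le (show (0 : ℝ) < 1 / 40 by norm_num)
    rw [← htd] at this
    linarith
  have hl2 : (Nat.log 2 N : ℝ) ≤ 80 * t := by
    have a1 : ((2 : ℝ)) ^ Nat.log 2 N ≤ N := by
      exact_mod_cast Nat.pow_log_le_self 2 (by exact_mod_cast h0.ne')
    have a2 := Real.log_le_log (by positivity) a1
    rw [Real.log_pow] at a2
    have a3 := Real.log_two_gt_d9
    have a4 : (0 : ℝ) ≤ Nat.log 2 N := Nat.cast_nonneg _
    nlinarith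
  have hY0 : (0 : ℝ) ≤ Y₁ := Nat.cast_nonneg _
  have hY : ((Y₁ + Nat.log 2 N + 1 : ℕ) : ℝ) ≤ (Y₁ + 81) * t := by
    push_cast
    nlinarith
  have hY14 : ((Y₁ + Nat.log 2 N + 1 : ℕ) : ℝ) ^ 14 ≤ ((Y₁ : ℝ) + 81) ^ 14 * t ^ 14 := by
    rw [← mul_pow]
    exact pow_le_pow_left₀ (Nat.cast_nonneg _) hY 14
  have ht14 : t ≤ t ^ 14 := le_self_pow₀ ht1 (by norm_num)
  have hL : Real.log (21 * N) ≤ 61 * t ^ 14 := by
    rw [Real.log_mul (by norm_num) h0.ne']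
    have := Real.log_le_sub_one_of_pos (show (0 : ℝ) < 21 by norm_num)
    linarith
  rw [e1, e2]
  have ht0 : 0 < t := by linarith
  calc D * (t ^ 4 * (Real.log (21 * N) + ((Y₁ + Nat.log 2 N + 1 : ℕ) : ℝ) ^ 14))
      ≤ D * (t ^ 4 * (61 * t ^ 14 + ((Y₁ : ℝ) + 81) ^ 14 * t ^ 14)) := by gcongr
    _ = D * (61 + ((Y₁ : ℝ) + 81) ^ 14) * t ^ 18 := by ring
    _ < t * m * t ^ 18 := by gcongr
    _ = t ^ 19 * m := by ring
    _ ≤ t ^ 36 * m := by gcongr; norm_num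

lemma onevar_unit {G f : ℤ[X]} (h : f ∣ G) {ω : ℂ} (hω : Tor ω) (hu : H79.IsU (aeval ω G)) :
    H79.IsU (aeval ω f) := by
  obtain ⟨q, rfl⟩ := h
  obtain ⟨n, hn, hωn⟩ := hω
  have hi : IsIntegral ℤ ω := IsIntegral.of_pow hn (hωn ▸ isIntegral_one)
  have ha : ∀ p : ℤ[X], IsIntegral ℤ (aeval ω p) := fun p =>
    IsIntegral.of_mem_of_fg (Algebra.adjoin ℤ {ω}) hi.fg_adjoin_singleton _
      (aeval_mem_adjoin_singleton ℤ ω)
  obtain ⟨u1, -, u3⟩ := hu
  rw [map_mul] at u1 u3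
  have f0 := left_ne_zero_of_mul u1
  have q0 := right_ne_zero_of_mul u1
  refine ⟨f0, ha f, ?_⟩
  have : (aeval ω f)⁻¹ = aeval ω q * (aeval ω f * aeval ω q)⁻¹ := by field_simp
  rw [this]
  exact (ha q).mul u3

lemma onevar_zero (h4 : H79.SNorm) {f : ℤ[X]} {N : ℕ} (hN : 0 < N) {ω : ℂ}
    (hω : IsPrimitiveRoot ω N) (hu : H79.IsU (aeval ω f)) :
    ∑ j ∈ Cop N, Real.log ‖aeval (ω ^ j) f‖ = 0 := by
  have e : ∀ x : ℂ, aeval x f =
      ∑ i ∈ range (f.natDegree + 1), ((f.coeff i : ℤ) : ℂ) * x ^ ((i : ℕ) : ℤ) := by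
    intro x
    rw [aeval_eq_sum_range]
    simp
  have h := h4 N hN ℕ (range (f.natDegree + 1)) f.coeff (fun i => (i : ℤ)) ω hω (e ω ▸ hu)
  simp only [← e] at h
  have h' : ∏ x ∈ primitiveRoots N ℂ, ‖aeval x f‖ = 1 := by
    rw [← norm_prod]
    rcases h with h | h <;> simp [h]
  rw [← field_sum_prim N ω hN hω fun x => Real.log ‖aeval x f‖, ← Real.log_prod, h', Real.log_one]
  intro x hx h0
  rw [prod_eq_zero hx h0] at h'
  exact zero_ne_one h'

theorem sOneVar (h1 : SRoot) (h2 : SArith) (h3 : H79.STL) (h4 : H79.SNorm) : SOneVar := by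
  intro G ρ hG hρ hT hr
  obtain ⟨f, hf, hfG, hfρ⟩ := H91.two_irr hG hr
  have f0 : f ≠ 0 := hf.ne_zero
  have hnt : ∀ α : ℂ, aeval α f = 0 → ∀ n : ℕ, 0 < n → α ^ n ≠ 1 := by
    intro α hα n hn e
    obtain ⟨q, hq⟩ := H91.two_conj (G := X ^ n - 1) hf hα (by simp [e])
    refine hT ⟨n, hn, ?_⟩
    have := congrArg (aeval ρ) hq
    rw [map_mul, hfρ, zero_mul] at this
    simpa [sub_eq_zero] using this
  obtain ⟨p, hp⟩ : ∃ p : ℂ[X], p = f.map (Int.castRingHom ℂ) := ⟨_, rfl⟩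
  have hinj := (Int.castRingHom ℂ).injective_int
  have p0 : p ≠ 0 := hp ▸ (Polynomial.map_ne_zero_iff hinj).2 f0
  have hev : ∀ x, p.eval x = aeval x f := fun x => hp ▸ H91.two_eval_map f x
  have hroot : ∀ α ∈ p.roots, aeval α f = 0 := fun α hα => hev α ▸ (mem_roots p0).1 hα
  have hM : 0 < p.logMahlerMeasure := by
    rw [logMahlerMeasure_eq_log_MahlerMeasure]
    refine Real.log_pos (lt_of_le_of_ne (hp ▸ one_le_mahlerMeasure_of_ne_zero f0) fun e => hT ?_)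
    rw [hp] at e
    exact pow_eq_one_of_mahlerMeasure_eq_one e.symm hρ (mem_aroots.2 ⟨f0, hfρ⟩)
  obtain ⟨Y₀, hY₀⟩ := h3
  obtain ⟨H, hH⟩ : ∃ H : ℕ, ∀ n, |f.coeff n| ≤ H := by
    refine ⟨f.support.sup fun n => (f.coeff n).natAbs, fun n => ?_⟩
    by_cases hn : n ∈ f.support
    · rw [← Int.natCast_natAbs]
      exact_mod_cast Finset.le_sup (f := fun n => (f.coeff n).natAbs) hn
    · rw [notMem_support_iff.1 hn]
      simp
  obtain ⟨N₁, hN₁⟩ := h2 (1 / 10) (by norm_num)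
  obtain ⟨N₂, hN₂⟩ := onevar_num f.natDegree (Y₀ + f.natDegree + H) _ hM
  refine ⟨max N₁ N₂, fun ω hω hu => ?_⟩
  have hu' := onevar_unit hfG hω hu
  obtain ⟨n, hn, hωn⟩ := hω
  obtain ⟨N, hN, hprim⟩ := IsPrimitiveRoot.exists_pos hωn hn.ne'
  refine ⟨N, hN, ?_, hprim.pow_eq_one⟩
  by_contra hc
  have hc : max N₁ N₂ ≤ N := (not_le.1 hc).le
  obtain ⟨a1, a2⟩ := hN₁ N ((le_max_left _ _).trans hc)
  have a3 := hN₂ N ((le_max_right _ _).trans hc)
  obtain ⟨Y, hY⟩ : ∃ Y : ℕ, Y = Y₀ + f.natDegree + H + Nat.log 2 N + 1 := ⟨_, rfl⟩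
  rw [← hY] at a3
  have hN' : (1 : ℝ) ≤ N := by exact_mod_cast hN
  obtain ⟨d, hd⟩ : ∃ d : ℝ, d = Real.exp (-(Y : ℝ) ^ 14) / 7 := ⟨_, rfl⟩
  have hE0 := Real.exp_pos (-(Y : ℝ) ^ 14)
  have hE1 : Real.exp (-(Y : ℝ) ^ 14) ≤ 1 :=
    Real.exp_le_one_iff.2 (neg_nonpos.2 (by positivity))
  have hlog : Real.log (3 * N / d) = Real.log (21 * N) + (Y : ℝ) ^ 14 := by
    have : 3 * (N : ℝ) / d = 21 * N * Real.exp ((Y : ℝ) ^ 14) := by
      rw [hd, Real.exp_neg]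
      field_simp
      norm_num
    rw [this, Real.log_mul (by positivity) (Real.exp_pos _).ne', Real.log_exp]
  have hcard : ((Cop N).card : ℝ) = N.totient := by
    rw [Nat.totient, Cop]
    simp only [Nat.coprime_comm]
  have hper : ∀ α ∈ p.roots, (N.totient : ℝ) * Real.posLog ‖α‖ -
      N.divisors.card * Real.log (3 * N / d) ≤ ∑ j ∈ Cop N, Real.log ‖ω ^ j - α‖ := by
    intro α hα
    have hfar : d * max 1 ‖α‖ ^ N ≤ ‖α ^ N - ((1 : ℝ) : ℂ) ^ N‖ := by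
      rw [Complex.ofReal_one, one_pow]
      by_contra hn'
      obtain ⟨η, e1, e2⟩ := H88.near α N hN d (by linarith) (not_le.1 hn').le
      have := hY₀ Y (by omega) f α η N f0 (by omega)
        (fun i => (hH i).trans (by
          have : H ≤ 2 ^ Y := (Nat.lt_two_pow_self (n := H)).le.trans
            (Nat.pow_le_pow_right (by norm_num) (by omega))
          exact_mod_cast this))
        (hroot α hα) (hnt α (hroot α hα)) hN
        ((Nat.lt_pow_succ_log_self (by norm_num) N).le.trans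
          (Nat.pow_le_pow_right (by norm_num) (by omega))) e1
      linarith
    have := h1 N 1 0 ω α 1 d hN (one_dvd _) hprim le_rfl (by simp) (by linarith) (by linarith) hfar
    simp only [Nat.mod_one, filter_true, Complex.ofReal_one, mul_one] at this
    rwa [hcard, ← Real.posLog_eq_log_max_one (norm_nonneg α)] at this
  have hs := onevar_sum p.roots (Cop N) (fun j α => Real.log ‖ω ^ j - α‖) _ _ _ hper
  have hz := onevar_zero h4 hN hprim hu'
  have hz' : ∑ j ∈ Cop N, (Real.log ‖p.leadingCoeff‖ +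
      (p.roots.map fun α => Real.log ‖ω ^ j - α‖).sum) = 0 := by
    rw [← hz]
    refine sum_congr rfl fun j _ => ?_
    rw [← hev, onevar_log_eval p p0]
    intro α hα e
    refine hnt α (hroot α hα) N hN ?_
    rw [← e, ← pow_mul, mul_comm, pow_mul, hprim.pow_eq_one, one_pow]
  rw [sum_add_distrib, sum_const, nsmul_eq_mul, hcard] at hz'
  have hdeg : (p.roots.card : ℝ) ≤ f.natDegree := by
    exact_mod_cast (card_roots' p).trans (hp ▸ natDegree_map_le)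
  have hML := logMahlerMeasure_eq_log_leadingCoeff_add_sum_log_roots p
  have hL0 : 0 ≤ Real.log (21 * N) + (Y : ℝ) ^ 14 :=
    add_nonneg (Real.log_nonneg (by linarith)) (by positivity)
  rw [hlog] at hs
  have b1 : (p.roots.card : ℝ) * (N.divisors.card * (Real.log (21 * N) + (Y : ℝ) ^ 14)) ≤
      f.natDegree * ((N : ℝ) ^ (1 / 10 : ℝ) * (Real.log (21 * N) + (Y : ℝ) ^ 14)) := by gcongr
  have b2 : (N : ℝ) ^ (1 - 1 / 10 : ℝ) * p.logMahlerMeasure ≤ N.totient * p.logMahlerMeasure := by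
    gcongr
  rw [hML] at b2 a3
  nlinarith

end Pool.Agent.MP_c1891a_nt.H43
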